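import Pool.Agent.Lib.MP_9c903d_ag.UB.Grp

/-!
# The nilpotency class of nilpotent Kaehler and quasi-Kaehler groups is bounded in terms of `b_1`

The definitions of the statement are in `Pool/Agent/Lib/MP_9c903d_ag/UB/Defs.lean`
(`MorganPresented`) and `Pool/Agent/Lib/MP_9c903d_ag/UB/Grp.lean` (`MorganData`).
-/

namespace Pool.Agent.Results.MP_9c903d_ag.BoundedBetti

open Pool.Agent.MP_9c903d.UB

/-- For every `b` there is a constant `C` such that every torsion-free group `G` with Malcev-Morgan
data with `b` generators (as every nilpotent Kaehler or quasi-Kaehler group with `b_1 = b` has) is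
nilpotent of class at most `C`; without the assumption on torsion, the elements of `γ_{C+1}(G)` are
torsion elements; and every nilpotent Lie algebra with a Morgan presentation with `b` generators
has class at most `C`. -/
theorem result (b : ℕ) : ∃ C : ℕ,
    (∀ (G : Type*) [Group G], MorganData b G →
      (∀ g : G, ∀ k : ℕ, 0 < k → g ^ k = 1 → g = 1) →
        Group.IsNilpotent G ∧ Group.nilpotencyClass G ≤ C) ∧
    (∀ (G : Type*) [Group G], MorganData b G →
      ∀ g ∈ (⊤ : Subgroup G).lowerCentralSeries C, ∃ k, 0 < k ∧ g ^ k = 1) ∧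
    ∀ (L : Type) [LieRing L] [LieAlgebra ℂ L], MorganPresented b L → LieRing.IsNilpotent L →
      LieModule.lowerCentralSeries ℂ L L C = ⊥ := by
  obtain ⟨C, hC⟩ := uniform b
  exact ⟨C, fun G _ h htf => class_of_bound hC h htf, fun G _ h => torsion_of_bound hC h, hC⟩

end Pool.Agent.Results.MP_9c903d_ag.BoundedBetti
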