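import Pool.Agent.Lib.MP_9c903d_ag.NK.Fin

/-!
# A torsion-free nilpotent Kaehler group of nilpotency class at least 3 has first Betti number at
least 10

The definitions of the statement are in `Pool/Agent/Lib/MP_9c903d_ag/NK/Defs.lean`. Every
fundamental group of a compact connected Kaehler manifold carries a `HodgeRiemannData`: Hodge
decomposition of `H^1`, the form `T(a,b,c,d) = ∫ a b c d ω^(n-2)` with the Hodge-Riemann relation for
holomorphic 2-forms, and the theorem of Castelnuovo and de Franchis.
-/

namespace Pool.Agent.Results.MP_9c903d_ag.ClassThree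

open Pool.Agent.MP_9c903d

/-- Let `G` be a torsion-free nilpotent group with Hodge-Riemann data (as `G = π_1(M)`, `M` compact
Kaehler, has). If the nilpotency class of `G` is at least `3`, then `b_1 = dim Hom(G, ℂ) ≥ 10`. -/
theorem result {G : Type*} [Group G] (D : HodgeRiemannData G) [Module.Finite ℂ (H1 G)]
    (hn : Group.IsNilpotent G) (htf : ∀ g : G, ∀ n : ℕ, 0 < n → g ^ n = 1 → g = 1)
    (hc : 3 ≤ Group.nilpotencyClass G) : 10 ≤ Module.finrank ℂ (H1 G) :=
  main D hn htf hc

/-- If `b_1 ≤ 9` (that is, `b_1 ≤ 8`, as `b_1` is even), then the nilpotency class is at most 2. -/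
theorem class_le_two {G : Type*} [Group G] (D : HodgeRiemannData G) [Module.Finite ℂ (H1 G)]
    (hn : Group.IsNilpotent G) (htf : ∀ g : G, ∀ n : ℕ, 0 < n → g ^ n = 1 → g = 1)
    (hb : Module.finrank ℂ (H1 G) ≤ 9) : Group.nilpotencyClass G ≤ 2 := by
  by_contra h
  have := result D hn htf (by omega)
  omega

end Pool.Agent.Results.MP_9c903d_ag.ClassThree
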