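import Pool.Agent.Lib.MP_9c903d_ag.NL.Main

/-!
# Torsion-free nilpotent Kaehler groups of class at least 3 have `rank γ_2/γ_3 ≥ 4`

The data `HodgeTypeData` are defined in `Pool/Agent/Lib/MP_9c903d_ag/NL/Defs.lean` (it extends
`HodgeRiemannData` of `Pool/Agent/Lib/MP_9c903d_ag/NK/Defs.lean`); every fundamental group of a
compact connected Kaehler manifold has them. `(⊤ : Subgroup G).lowerCentralSeries 1` is `γ_2(G)`
and `(⊤ : Subgroup G).lowerCentralSeries 2` is `γ_3(G)`.
-/

namespace Pool.Agent.Results.MP_9c903d_ag.CommutatorRank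

open Pool.Agent.MP_9c903d

/-- Let `G` be a torsion-free nilpotent group with these data and `b_1` finite. If the nilpotency
class of `G` is at least `3`, then the rank of `γ_2/γ_3` is at least `4`: there are four linearly
independent homomorphisms `γ_2 → ℂ` that vanish on `γ_3`. -/
theorem result {G : Type*} [Group G] (D : HodgeTypeData G) [Module.Finite ℂ (H1 G)]
    (hn : Group.IsNilpotent G) (htf : ∀ g : G, ∀ n : ℕ, 0 < n → g ^ n = 1 → g = 1)
    (hc : 3 ≤ Group.nilpotencyClass G) :
    ∃ l : Fin 4 → (Additive ((⊤ : Subgroup G).lowerCentralSeries 1) →+ ℂ),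
      LinearIndependent ℂ l ∧ ∀ m, ∀ x : (⊤ : Subgroup G).lowerCentralSeries 1,
        (x : G) ∈ (⊤ : Subgroup G).lowerCentralSeries 2 → l m (.ofMul x) = 0 :=
  nl_main D hn htf hc

end Pool.Agent.Results.MP_9c903d_ag.CommutatorRank
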