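import Pool.Agent.Lib.MP_9c903d_ag.QK.Grp

/-!
# Torsion-free nilpotent quasi-Kaehler groups with few generators have class at most two

`HodgeMorganData h m G` is defined in `Pool/Agent/Lib/MP_9c903d_ag/QK/Grp.lean`, `HodgePresented`
in `Pool/Agent/Lib/MP_9c903d_ag/QK/Defs.lean`. Every torsion-free nilpotent quasi-Kaehler group `G`
with `dim W_1 H^1 = 2 h` and `dim gr^W_2 H^1 = m` has these data (Malcev, Morgan); `b_1 = 2 h + m`.
-/

namespace Pool.Agent.Results.MP_9c903d_ag.SmallQuasiKaehler

open Pool.Agent.MP_9c903d.QK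

/-- Let `G` be a torsion-free group with Malcev-Morgan data with `h ≤ 1` generators of type `(1,0)`,
`h` generators of type `(0,1)` and `m ≤ 4` generators of type `(1,1)`. Then `G` is nilpotent of
class at most `2`. This covers all the cases with `b_1 = 2 h + m ≤ 3`. -/
theorem result {h m : ℕ} (hh : h ≤ 1) (hm : m ≤ 4) {G : Type*} [Group G]
    (D : HodgeMorganData h m G) (htf : ∀ g : G, ∀ k : ℕ, 0 < k → g ^ k = 1 → g = 1) :
    Group.IsNilpotent G ∧ Group.nilpotencyClass G ≤ 2 :=
  qk_grp hh hm D htf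

end Pool.Agent.Results.MP_9c903d_ag.SmallQuasiKaehler
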